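import Pool.Agent.MP_79429d_co.Gen

set_option autoImplicit false

namespace Pool.Agent.Results.MP_79429d_co.ForbiddenValues

theorem result (p : ℕ) (hp : p.Prime) (g a k : ℕ) (b : Fin k → ℕ) (hg : 1 ≤ g) (ha : 1 ≤ a)
    (hk : 1 ≤ k) (hb : ∀ j, 1 ≤ b j) (hle : g * (a + 2 * ∑ j, b j) ≤ p + g)
    (n : ℕ) (A : Fin k → Matrix (Fin n) (Fin n) (ZMod p)) (hA : ∀ j, IsUnit (A j).det)
    (F : Fin n → Finset (ZMod p)) (hF : ∀ i, (F i).card < g * a)
    (G : Fin k → Fin n → Finset (ZMod p)) (hG : ∀ j i, (G j i).card < g * b j) :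
    ∃ x : Fin n → ZMod p, (∀ i, x i ∉ F i) ∧ ∀ j i, (A j).mulVec x i ∉ G j i := by
  have : Fact p.Prime := ⟨hp⟩
  have hs : ∀ j, b j ≤ ∑ j, b j := fun j =>
    Finset.single_le_sum (f := b) (fun _ _ => Nat.zero_le _) (Finset.mem_univ j)
  have h0 : 0 < ∑ j, b j := (hb ⟨0, hk⟩).trans (hs _)
  by_cases h2 : p = 2
  · have e1 : g * a = 1 ∧ g * ∑ j, b j = 1 := by
      have c1 := Nat.mul_le_mul_left g ha
      have c2 := Nat.mul_le_mul_left g h0
      rw [mul_add, mul_left_comm] at hle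
      omega
    refine ⟨0, fun i hi => ?_, fun j i hi => ?_⟩
    · have := Finset.card_pos.2 ⟨_, hi⟩
      have := hF i
      omega
    · have := Finset.card_pos.2 ⟨_, hi⟩
      have := hG j i
      have := Nat.mul_le_mul_left g (hs j)
      omega
  have : NeZero (2 : ZMod p) := ⟨fun h => h2 (by
    have h1 : ((2 : ℕ) : ZMod p) = 0 := by simpa using h
    exact (Nat.prime_dvd_prime_iff_eq hp Nat.prime_two).1 ((CharP.cast_eq_zero_iff _ p 2).1 h1))⟩
  exact Pool.Agent.AJT.G.avoid_matrices (K := ZMod p) p ZMod.pow_card (by simp) ha h0 hg hle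
    (fun j i => A j i) (fun j => Matrix.linearIndependent_rows_iff_isUnit.2
      ((Matrix.isUnit_iff_isUnit_det _).2 (hA j))) F hF G hG

end Pool.Agent.Results.MP_79429d_co.ForbiddenValues
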